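import Mathlib

open Finset

namespace Pool.Agent.H.MP_328b17_nt

variable {A : Type*} [CommRing A]

theorem ex5 {x : A} (h : x ^ 5 = 0) (m : ℕ) : 24 * (1 + x) ^ m = 24 + 24 * m * x
    + 12 * (m * (m - 1)) * x ^ 2 + 4 * (m * (m - 1) * (m - 2)) * x ^ 3
    + (m * (m - 1) * (m - 2) * (m - 3)) * x ^ 4 := by
  induction m with
  | zero => simp
  | succ m ih =>
    rw [pow_succ]; push_cast
    linear_combination (1 + x) * ih + ((m : A) * (m - 1) * (m - 2) * (m - 3)) * h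

theorem step0 (e f m z zi Ym Pt k2 k3 : A) (h5 : e ^ 5 = 0) (hz : (1 - z) * f = 1)
    (hzi : z * zi = 1)
    (h1 : 24 * Ym = 24 + 24 * m * e + 12 * (m * (m - 1)) * e ^ 2 + 4 * (m * (m - 1) * (m - 2)) * e ^ 3
      + (m * (m - 1) * (m - 2) * (m - 3)) * e ^ 4)
    (h2 : 24 * Pt = 24 + 24 * (2 * m + 2) * (e * f) + 12 * ((2 * m + 2) * (2 * m + 1)) * (e * f) ^ 2
      + 4 * ((2 * m + 2) * (2 * m + 1) * (2 * m)) * (e * f) ^ 3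
      + ((2 * m + 2) * (2 * m + 1) * (2 * m) * (2 * m - 1)) * (e * f) ^ 4)
    (h3 : 24 * (Ym * (1 + e)) ^ 2 = 24 + 24 * (2 * m + 2) * e + 12 * ((2 * m + 2) * (2 * m + 1)) * e ^ 2
      + 4 * ((2 * m + 2) * (2 * m + 1) * (2 * m)) * e ^ 3
      + ((2 * m + 2) * (2 * m + 1) * (2 * m) * (2 * m - 1)) * e ^ 4)
    (hk2 : 6 * k2 = m * (2 * m + 1)) (hk3 : 12 * k3 = m * (2 * m + 1) * (m - 2)) :
    6912 * ((Ym * z + zi + (k2 * e ^ 2 + k3 * e ^ 3 - Ym - 1)) * Pt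
      - (Ym * z + (Ym * (1 + e)) ^ 2 * zi + (k2 * e ^ 2 + k3 * e ^ 3 - Ym - 1) * (Ym * (1 + e)))) = 0 := by
  have hf : zi * f = f + zi := by linear_combination zi * hz + f * hzi
  set b1 := 24 * (2 * m + 2) with hb1
  set b2 := 12 * ((2 * m + 2) * (2 * m + 1)) with hb2
  set b3 := 4 * ((2 * m + 2) * (2 * m + 1) * (2 * m)) with hb3
  set b4 := (2 * m + 2) * (2 * m + 1) * (2 * m) * (2 * m - 1) with hb4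
  have a1 : 24 * (z * Pt - z) = b1 * e * (f - 1) + b2 * e ^ 2 * (f ^ 2 - f)
      + b3 * e ^ 3 * (f ^ 3 - f ^ 2) + b4 * e ^ 4 * (f ^ 4 - f ^ 3) := by
    linear_combination z * h2 - (b1 * e + b2 * e ^ 2 * f + b3 * e ^ 3 * f ^ 2 + b4 * e ^ 4 * f ^ 3) * hz
  have a2 : 24 * (zi * Pt - (Ym * (1 + e)) ^ 2 * zi) = b1 * e * f + b2 * e ^ 2 * (f ^ 2 + f)
      + b3 * e ^ 3 * (f ^ 3 + f ^ 2 + f) + b4 * e ^ 4 * (f ^ 4 + f ^ 3 + f ^ 2 + f) := by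
    linear_combination zi * h2 - zi * h3 + (b1 * e + b2 * e ^ 2 * (f + 1)
      + b3 * e ^ 3 * (f ^ 2 + f + 1) + b4 * e ^ 4 * (f ^ 3 + f ^ 2 + f + 1)) * hf
  set A0 := 24 + 24 * m * e + 12 * (m * (m - 1)) * e ^ 2 + 4 * (m * (m - 1) * (m - 2)) * e ^ 3
      + (m * (m - 1) * (m - 2) * (m - 3)) * e ^ 4 with hA0
  have a3 : 24 * (Pt - Ym * (1 + e)) = 24 + b1 * (e * f) + b2 * (e * f) ^ 2 + b3 * (e * f) ^ 3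
      + b4 * (e * f) ^ 4 - A0 * (1 + e) := by
    linear_combination h2 - (1 + e) * h1
  have a4 : 12 * A0 * (b1 * e * (f - 1) + b2 * e ^ 2 * (f ^ 2 - f)
      + b3 * e ^ 3 * (f ^ 3 - f ^ 2) + b4 * e ^ 4 * (f ^ 4 - f ^ 3))
      + 288 * (b1 * e * f + b2 * e ^ 2 * (f ^ 2 + f)
      + b3 * e ^ 3 * (f ^ 3 + f ^ 2 + f) + b4 * e ^ 4 * (f ^ 4 + f ^ 3 + f ^ 2 + f))
      + (24 * (2 * m * (2 * m + 1) * e ^ 2 + m * (2 * m + 1) * (m - 2) * e ^ 3) - 12 * A0 - 288)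
      * (24 + b1 * (e * f) + b2 * (e * f) ^ 2 + b3 * (e * f) ^ 3
      + b4 * (e * f) ^ 4 - A0 * (1 + e)) = 0 := by
    rw [hb1, hb2, hb3, hb4, hA0]
    linear_combination (-1728 * m + 7968 * m ^ 2 - 4512 * m ^ 3 - 192 * m ^ 4 + 192 * m ^ 5 - 2304 * f * m - 3456
      * f * m ^ 2 + 4608 * f * m ^ 3 + 3456 * f * m ^ 4 - 2304 * f * m ^ 5 - 1152 * f ^ 2 * m -
      2880 * f ^ 2 * m ^ 2 - 1728 * f ^ 2 * m ^ 3 - 2304 * f ^ 2 * m ^ 4 - 2304 * f ^ 2 * m ^ 5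
      + 1920 * f ^ 3 * m ^ 2 + 4992 * f ^ 3 * m ^ 3 + 1536 * f ^ 3 * m ^ 4 - 1536 * f ^ 3 * m ^
      5 - 3552 * e * m ^ 2 + 4464 * e * m ^ 3 - 96 * e * m ^ 4 - 1008 * e * m ^ 5 + 192 * e * m
      ^ 6 + 1728 * e * f * m + 2016 * e * f * m ^ 2 - 4320 * e * f * m ^ 3 - 1440 * e * f * m ^
      4 + 2592 * e * f * m ^ 5 - 576 * e * f * m ^ 6 - 1536 * e * f ^ 2 * m ^ 2 - 2304 * e * f ^
      2 * m ^ 3 + 3072 * e * f ^ 2 * m ^ 4 + 2304 * e * f ^ 2 * m ^ 5 - 1536 * e * f ^ 2 * m ^ 6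
      - 1344 * e * f ^ 3 * m ^ 2 - 3456 * e * f ^ 3 * m ^ 3 - 1344 * e * f ^ 3 * m ^ 4 - 768 * e
      * f ^ 3 * m ^ 6 - 192 * e * f ^ 4 * m ^ 2 - 576 * e * f ^ 4 * m ^ 3 + 384 * e * f ^ 4 * m
      ^ 4 + 2304 * e * f ^ 4 * m ^ 5 + 1536 * e * f ^ 4 * m ^ 6 + 1728 * e ^ 2 * m ^ 2 - 3216 *
      e ^ 2 * m ^ 3 + 1464 * e ^ 2 * m ^ 4 + 288 * e ^ 2 * m ^ 5 - 312 * e ^ 2 * m ^ 6 + 48 * e
      ^ 2 * m ^ 7 + 1152 * e ^ 2 * f ^ 2 * m ^ 2 + 1344 * e ^ 2 * f ^ 2 * m ^ 3 - 2880 * e ^ 2 *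
      f ^ 2 * m ^ 4 - 960 * e ^ 2 * f ^ 2 * m ^ 5 + 1728 * e ^ 2 * f ^ 2 * m ^ 6 - 384 * e ^ 2 *
      f ^ 2 * m ^ 7 + 384 * e ^ 2 * f ^ 3 * m ^ 2 - 192 * e ^ 2 * f ^ 3 * m ^ 3 - 1920 * e ^ 2 *
      f ^ 3 * m ^ 4 + 960 * e ^ 2 * f ^ 3 * m ^ 5 + 1536 * e ^ 2 * f ^ 3 * m ^ 6 - 768 * e ^ 2 *
      f ^ 3 * m ^ 7 + 192 * e ^ 2 * f ^ 4 * m ^ 2 + 480 * e ^ 2 * f ^ 4 * m ^ 3 - 672 * e ^ 2 *
      f ^ 4 * m ^ 4 - 2112 * e ^ 2 * f ^ 4 * m ^ 5 - 384 * e ^ 2 * f ^ 4 * m ^ 6 + 768 * e ^ 2 *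
      f ^ 4 * m ^ 7 - 1008 * e ^ 3 * m ^ 2 + 2352 * e ^ 3 * m ^ 3 - 1788 * e ^ 3 * m ^ 4 + 336 *
      e ^ 3 * m ^ 5 + 192 * e ^ 3 * m ^ 6 - 96 * e ^ 3 * m ^ 7 + 12 * e ^ 3 * m ^ 8 - 288 * e ^
      3 * f ^ 3 * m ^ 2 + 240 * e ^ 3 * f ^ 3 * m ^ 3 + 1392 * e ^ 3 * f ^ 3 * m ^ 4 - 1200 * e
      ^ 3 * f ^ 3 * m ^ 5 - 912 * e ^ 3 * f ^ 3 * m ^ 6 + 960 * e ^ 3 * f ^ 3 * m ^ 7 - 192 * e
      ^ 3 * f ^ 3 * m ^ 8 + 432 * e ^ 4 * m ^ 2 - 1584 * e ^ 4 * m ^ 3 + 2316 * e ^ 4 * m ^ 4 -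
      1728 * e ^ 4 * m ^ 5 + 696 * e ^ 4 * m ^ 6 - 144 * e ^ 4 * m ^ 7 + 12 * e ^ 4 * m ^ 8) * h5
  linear_combination a4 + 12 * A0 * a1 + 288 * a2
    + (24 * (2 * m * (2 * m + 1) * e ^ 2 + m * (2 * m + 1) * (m - 2) * e ^ 3) - 12 * A0 - 288) * a3
    + (288 * (z * Pt - z) - 288 * (Pt - Ym * (1 + e))) * h1
    + 576 * (Pt - Ym * (1 + e)) * (2 * e ^ 2 * hk2 + e ^ 3 * hk3)

end Pool.Agent.H.MP_328b17_nt
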