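import Mathlib
import Pool.Agent.H.MP_328b17_nt.S

open Finset

namespace Pool.Agent.H.MP_328b17_nt

variable {A : Type*} [CommRing A]

theorem Wl (z : A) (f : ℕ → A) (N : ℕ) (hz : z ^ (N + 1) = 1)
    (hf : ∀ j, j < N → (1 - z ^ (j + 1)) * f (j + 1) = 1) :
    ((N : A) + 1) * (12 * ∑ j ∈ range N, f (j + 1) * f (N - j) - N * (N + 2)) = 0 := by
  have geo : ∀ a, a < N → ∑ j ∈ range (N + 1), (z ^ (a + 1)) ^ j = 0 := fun a ha => by
    have h1 := geom_sum_mul_neg (z ^ (a + 1)) (N + 1)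
    rw [← pow_mul, mul_comm (a + 1), pow_mul, hz, one_pow] at h1
    linear_combination f (a + 1) * h1 - (∑ j ∈ range (N + 1), (z ^ (a + 1)) ^ j) * hf a ha
  set F : ℕ → A := fun a => ∑ j ∈ range N, (z ^ (j + 1)) ^ a * (f (j + 1) * f (N - j)) with hF
  have h2 : ∀ a, a < N → F (a + 2) = 2 * F (a + 1) - F a + 1 := fun a ha => by
    have g := geo a ha
    rw [sum_range_succ', pow_zero] at g
    have : F (a + 2) - 2 * F (a + 1) + F a + ∑ j ∈ range N, (z ^ (a + 1)) ^ (j + 1) = 0 := by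
      simp only [hF]
      rw [mul_sum, ← sum_sub_distrib, ← sum_add_distrib, ← sum_add_distrib]
      refine sum_eq_zero fun j hj => ?_
      have hj' := mem_range.1 hj
      have a1 := hf j hj'
      have a2 := hf (N - j - 1) (by omega)
      rw [show N - j - 1 + 1 = N - j by omega] at a2
      have a3 : z ^ (j + 1) * z ^ (N - j) = 1 := by rw [← pow_add, ← hz]; congr 1; omega
      rw [← pow_mul z (a + 1), mul_comm (a + 1), pow_mul]
      generalize z ^ (j + 1) = u at a1 a3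
      linear_combination u ^ a * ((1 - u) * f (N - j) * a1 - u * a2 - f (N - j) * a3)
    linear_combination this - g
  have h3 : ∀ a, a ≤ N → 2 * F a = 2 * F 0 + 2 * a * (F 1 - F 0) + a * (a - 1) ∧
      2 * F (a + 1) = 2 * F 0 + 2 * (a + 1) * (F 1 - F 0) + (a + 1) * a := by
    intro a
    induction a with
    | zero => intro _; constructor <;> (push_cast; ring)
    | succ a ih =>
      intro ha
      obtain ⟨i1, i2⟩ := ih (by omega)
      push_cast
      constructor
      · linear_combination i2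
      · rw [h2 a (by omega)]; linear_combination 2 * i2 - i1
  have h4 : F (N + 1) = F 0 := sum_congr rfl fun j _ => by
    rw [← pow_mul, mul_comm (j + 1), pow_mul, hz]; simp
  have h5 : ∑ a ∈ range (N + 1), F a = 0 := by
    simp only [hF]
    rw [sum_comm]
    exact sum_eq_zero fun j hj => by rw [← sum_mul, geo j (mem_range.1 hj), zero_mul]
  have h6 : ∀ n, n ≤ N + 1 → 12 * ∑ a ∈ range n, F a = 12 * n * F 0 + 6 * n * (n - 1) * (F 1 - F 0)
      + 2 * n * (n - 1) * (n - 2) := by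
    intro n
    induction n with
    | zero => simp
    | succ n ih =>
      intro hn
      rw [sum_range_succ]; push_cast
      linear_combination ih (by omega) + 6 * (h3 n (by omega)).1
  have h7 := h6 (N + 1) le_rfl
  have h8 := (h3 N le_rfl).2
  have h9 : F 0 = ∑ j ∈ range N, f (j + 1) * f (N - j) := by simp [hF]
  rw [h5] at h7
  rw [h4] at h8
  rw [← h9]
  push_cast at h7
  linear_combination -h7 + 3 * N * h8

def c (y yi : A) (f : ℕ → A) (M k : ℕ) : A :=
  ∏ j ∈ range k, yi ^ M * (1 + (y - 1) * f (j + 1)) ^ (2 * M)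

def T (Q Qi y yi : A) (f : ℕ → A) (M n : ℕ) : A :=
  ∑ k ∈ range n, (Qi ^ k - Q ^ (k + 1) * yi) * c y yi f M k

section
variable {Q Qi y yi : A} {f : ℕ → A} {m N : ℕ} (hQ : Q * Qi = 1) (hy : y * yi = 1)
  (hN : Q ^ (N + 1) = y ^ (m + 1)) (hf : ∀ j, j < N → (1 - Q ^ (j + 1)) * f (j + 1) = 1)

include hy hN hf in
theorem pair (j : ℕ) (hj : j < N) : yi * ((1 + (y - 1) * f (j + 1)) * (1 + (y - 1) * f (N - j)))
    = 1 + (y - 1) * (1 - y ^ m) * (f (j + 1) * f (N - j)) := by
  have a1 := hf j hj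
  have a2 := hf (N - j - 1) (by omega)
  rw [show N - j - 1 + 1 = N - j by omega] at a2
  have a3 : Q ^ (j + 1) * Q ^ (N - j) = y ^ m * y := by
    rw [← pow_add, ← pow_succ, ← hN]; congr 1; omega
  generalize Q ^ (j + 1) = u at a1 a3
  generalize Q ^ (N - j) = v at a2 a3
  generalize f (j + 1) = g at a1
  generalize f (N - j) = h at a2
  generalize y ^ m = Y at a3
  linear_combination (1 + (y - 1) * (1 - Y) * (g * h)) * hy
    + yi * ((y - 1) * (-(h * a1) - g * a2 - g * h * a3) + (y - 1) * (1 - v) * h * a1 + (y - 1) * a2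
      - (y - 1) * g * h * a3 + (y - 1) * g * h * a3)

include hy hN hf in
theorem cN : c y yi f (m + 1) N
    = (∏ j ∈ range N, (1 + (y - 1) * (1 - y ^ m) * (f (j + 1) * f (N - j)))) ^ (m + 1) := by
  have h1 : ∏ j ∈ range N, (1 + (y - 1) * (1 - y ^ m) * (f (j + 1) * f (N - j)))
      = ∏ j ∈ range N, yi * (1 + (y - 1) * f (j + 1)) ^ 2 := by
    rw [← prod_congr rfl fun j hj => pair hy hN hf j (mem_range.1 hj), prod_mul_distrib,
      prod_mul_distrib, prod_mul_distrib, prod_pow, sq]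
    congr 2
    rw [← prod_range_reflect]
    exact prod_congr rfl fun j hj => by
      rw [show N - (N - 1 - j) = j + 1 by have := mem_range.1 hj; omega]
  rw [h1, ← prod_pow, c]
  exact prod_congr rfl fun j _ => by rw [mul_pow, pow_mul]

include hQ hy hN hf in
theorem anti (hm : y ^ m = 1) : 2 * T Q Qi y yi f (m + 1) (N + 1) = 0 := by
  have hc : ∀ k d, k + d = N → c y yi f (m + 1) k = c y yi f (m + 1) d := by
    have h0 : c y yi f (m + 1) N = 1 := by rw [cN hy hN hf, hm]; simp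
    intro k
    induction k with
    | zero => intro d h; rw [← h, zero_add] at h0; rw [h0, c]; simp
    | succ k ih =>
      intro d h
      have h1 := ih (d + 1) (by omega)
      have h2 := pair hy hN hf k (by omega)
      rw [hm, sub_self, mul_zero, zero_mul, add_zero, show N - k = d + 1 by omega] at h2
      rw [c, prod_range_succ, ← c, h1, c, prod_range_succ, ← c]
      have h3 : (yi ^ (m + 1) * (1 + (y - 1) * f (d + 1)) ^ (2 * (m + 1))) *
          (yi ^ (m + 1) * (1 + (y - 1) * f (k + 1)) ^ (2 * (m + 1)))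
          = (yi * ((1 + (y - 1) * f (k + 1)) * (1 + (y - 1) * f (d + 1)))) ^ (2 * (m + 1)) := by
        rw [mul_pow, mul_pow]; ring
      rw [mul_assoc, h3, h2, one_pow, mul_one]
  rw [two_mul, T]
  nth_rewrite 2 [← sum_range_reflect]
  rw [← sum_add_distrib]
  refine sum_eq_zero fun k hk => ?_
  obtain ⟨d, hd⟩ : ∃ d, k + d = N := ⟨N - k, by have := mem_range.1 hk; omega⟩
  rw [show N + 1 - 1 - k = d by omega, hc k d hd]
  have h1 : Q ^ (k + 1) * Q ^ d = y := by
    rw [← pow_add, show k + 1 + d = N + 1 by omega, hN, pow_succ, hm, one_mul]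
  have h2 : Q ^ (d + 1) * Q ^ k = y := by rw [← h1]; ring
  have h3 : ∀ i, Q ^ i * Qi ^ i = 1 := fun i => by rw [← mul_pow, hQ, one_pow]
  linear_combination c y yi f (m + 1) d * (-(yi * Qi ^ k) * h2 - Qi ^ k * hy
    + Q ^ (d + 1) * yi * h3 k - (yi * Qi ^ d) * h1 - Qi ^ d * hy + Q ^ (k + 1) * yi * h3 d)

theorem ratu [Algebra ℚ A] (n : ℕ) (hn : n ≠ 0) : IsUnit (n : A) := by
  have : (n : ℚ) ≠ 0 := by exact_mod_cast hn
  simpa using (IsUnit.mk0 _ this).map (algebraMap ℚ A)

include hQ hy hN hf in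
theorem tele [Algebra ℚ A] (h5 : (y - 1) ^ 5 = 0) (k2 k3 : A) (hk2 : 6 * k2 = m * (2 * m + 1))
    (hk3 : 12 * k3 = m * (2 * m + 1) * (m - 2)) :
    (y ^ (m + 1) * Qi - 1) * T Q Qi y yi f (m + 1) (N + 1)
      = (k2 * (y - 1) ^ 2 + k3 * (y - 1) ^ 3) * (c y yi f (m + 1) N - 1) := by
  set e := y - 1 with he
  have hye : y = 1 + e := by rw [he]; ring
  set κ := k2 * e ^ 2 + k3 * e ^ 3 - y ^ m - 1 with hκ
  have h3 : ∀ i, Q ^ i * Qi ^ i = 1 := fun i => by rw [← mul_pow, hQ, one_pow]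
  have h4 : y ^ (m + 1) * yi ^ (m + 1) = 1 := by rw [← mul_pow, hy, one_pow]
  have st : ∀ j, j < N → (y ^ m * Q ^ (j + 1) + Qi ^ (j + 1) + κ) * c y yi f (m + 1) (j + 1)
      - (y ^ m * Q ^ j + Qi ^ j + κ) * c y yi f (m + 1) j
      = (y ^ (m + 1) * Qi - 1) * ((Qi ^ j - Q ^ (j + 1) * yi) * c y yi f (m + 1) j) := by
    intro j hj
    have s := step0 e (f (j + 1)) m (Q ^ (j + 1)) (Qi ^ (j + 1)) (y ^ m)
      ((1 + e * f (j + 1)) ^ (2 * (m + 1))) k2 k3 h5 (hf j hj) (h3 _)
      (by rw [hye]; exact ex5 h5 m)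
      (by
        have := ex5 (x := e * f (j + 1)) (by rw [mul_pow, h5, zero_mul]) (2 * (m + 1))
        push_cast at this
        linear_combination this)
      (by
        have := ex5 h5 (2 * (m + 1))
        rw [← hye] at this ⊢
        push_cast at this
        linear_combination this) hk2 hk3
    have u := ratu (A := A) 6912 (by norm_num)
    rw [Nat.cast_ofNat] at u
    rw [u.mul_right_eq_zero, ← hκ, ← hye] at s
    rw [c, prod_range_succ, ← c, ← he]
    linear_combination c y yi f (m + 1) j * (yi ^ (m + 1) * s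
      + (Q ^ (j + 1) * yi + y ^ (m + 1) * Qi ^ (j + 1) + κ) * h4
      - yi ^ (m + 1) * y ^ m * Q ^ (j + 1) * hy + y ^ m * Q ^ j * hQ
      + y ^ m * Q ^ (j + 1) * Qi * hy)
  have sm := sum_range_sub (fun j => (y ^ m * Q ^ j + Qi ^ j + κ) * c y yi f (m + 1) j) N
  rw [sum_congr rfl fun j hj => st j (mem_range.1 hj), ← mul_sum] at sm
  have b1 : y ^ (m + 1) * Qi = Q ^ N := by rw [← hN]; linear_combination Q ^ N * hQ
  rw [T, sum_range_succ, mul_add, sm, b1, hN]
  simp only [c, range_zero, prod_empty, pow_zero]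
  rw [← c]
  linear_combination c y yi f (m + 1) N * (h3 N - (Q ^ N - 1) * y ^ m * hy)

include hQ hy hN hf in
theorem main [Algebra ℚ A] (h5 : (y - 1) ^ 5 = 0) :
    72 * ((y ^ (m + 1) * Qi - 1) * T Q Qi y yi f (m + 1) (N + 1))
      = -((m + 1) * m ^ 2 * (2 * m + 1) * (N * (N + 2))) * (y - 1) ^ 4 := by
  obtain ⟨r, hr⟩ := (ratu (A := A) 12 (by norm_num)).exists_right_inv
  rw [Nat.cast_ofNat] at hr
  rw [tele hQ hy hN hf h5 (2 * r * (m * (2 * m + 1))) (r * (m * (2 * m + 1) * (m - 2)))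
    (by linear_combination (m * (2 * m + 1) : A) * hr)
    (by linear_combination (m * (2 * m + 1) * (m - 2) : A) * hr), cN hy hN hf]
  have hW : (y - 1) ∣ ((N : A) + 1) * (12 * ∑ j ∈ range N, f (j + 1) * f (N - j) - N * (N + 2)) := by
    rw [← Ideal.mem_span_singleton, ← Ideal.Quotient.eq_zero_iff_mem]
    set π := Ideal.Quotient.mk (Ideal.span {y - 1})
    have h1 : π y = 1 := by
      rw [← sub_eq_zero, ← map_one π, ← map_sub, Ideal.Quotient.eq_zero_iff_mem]
      exact Ideal.mem_span_singleton_self _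
    have := Wl (π Q) (fun j => π (f j)) N (by rw [← map_pow, hN, map_pow, h1, one_pow])
      (fun j hj => by simpa using congrArg π (hf j hj))
    simpa [map_ofNat] using this
  have u := ratu (A := A) (N + 1) (by omega)
  push_cast at u
  rw [u.dvd_mul_left] at hW
  obtain ⟨w, hw⟩ := hW
  set e := y - 1 with he
  have hye : y = 1 + e := by rw [he]; ring
  obtain ⟨ρ, hρ⟩ : ∃ ρ, 1 - y ^ m = e * (-m + e * ρ) := by
    rw [hye]
    clear hN hw
    induction m with
    | zero => exact ⟨0, by simp⟩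
    | succ m ih =>
      obtain ⟨ρ, h⟩ := ih
      exact ⟨ρ * (1 + e) - m, by push_cast; linear_combination (1 + e) * h⟩
  have p1 : ∀ (v : ℕ → A) (n : ℕ), e ^ 2 * ∏ j ∈ range n, (1 + e ^ 2 * v j)
      = e ^ 2 * (1 + e ^ 2 * ∑ j ∈ range n, v j) := fun v n => by
    induction n with
    | zero => simp
    | succ n ih =>
      rw [prod_range_succ, sum_range_succ]
      linear_combination (1 + e ^ 2 * v n) * ih + (e * v n * ∑ j ∈ range n, v j) * h5
  have p2 : ∀ (X S : A) (n : ℕ), e ^ 2 * X = e ^ 2 * (1 + e ^ 2 * S) →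
      e ^ 2 * X ^ n = e ^ 2 * (1 + n * e ^ 2 * S) := fun X S n h => by
    induction n with
    | zero => simp
    | succ n ih =>
      push_cast
      linear_combination X * ih + (1 + n * e ^ 2 * S) * h + (e * n * S ^ 2) * h5
  have p3 := p2 _ _ (m + 1) (p1 (fun j => (-m + e * ρ) * (f (j + 1) * f (N - j))) N)
  rw [← mul_sum] at p3
  have p4 : ∏ j ∈ range N, (1 + e * (1 - y ^ m) * (f (j + 1) * f (N - j)))
      = ∏ j ∈ range N, (1 + e ^ 2 * ((-m + e * ρ) * (f (j + 1) * f (N - j)))) :=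
    prod_congr rfl fun j _ => by rw [hρ]; ring
  rw [p4]
  set G := ∑ j ∈ range N, f (j + 1) * f (N - j)
  push_cast at p3
  linear_combination 72 * (2 * r * (m * (2 * m + 1)) + r * (m * (2 * m + 1) * (m - 2)) * e) * p3
    - (12 * (m + 1) * m ^ 2 * (2 * m + 1) * e ^ 4 * G) * hr
    - ((m + 1) * m ^ 2 * (2 * m + 1) * e ^ 4) * hw
    + (72 * (m + 1) * G * (2 * r * (m * (2 * m + 1)) * ρ + r * (m * (2 * m + 1) * (m - 2)) * (-m + e * ρ))
      - (m + 1) * m ^ 2 * (2 * m + 1) * w) * h5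

end

end Pool.Agent.H.MP_328b17_nt
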