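import Mathlib
import Pool.Agent.H.MP_4d1f21_nt.Q
import Pool.Agent.H.MP_328b17_nt.A

open Finset Polynomial

namespace Pool.Agent.H.MP_328b17_nt

open Pool.Agent.H.MP_4d1f21_nt

variable {P : ℚ[X]}

theorem rel_of {g : RatFunc ℚ} (h1 : P ∣ g.num) (h2 : IsCoprime g.denom P) : Rel P g 0 := by
  refine ⟨g.num, g.denom, (unit_iff _).2 h2, g.denom_ne_zero, ?_, ?_⟩
  · conv_lhs => rw [← g.num_div_denom]
    rw [RatFunc.num_div_denom]
    have := g.num_div_denom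
    rw [div_eq_iff (RatFunc.algebraMap_ne_zero g.denom_ne_zero)] at this
    exact this.symm
  · rw [zero_mul, AdjoinRoot.mk_eq_zero]; exact h1

theorem rel_uniq {g : RatFunc ℚ} {a b : AdjoinRoot P} (h : Rel P g a) (k : Rel P g b) : a = b := by
  obtain ⟨U, V, h1, h2, h3, h4⟩ := h.sub k
  rw [sub_self, zero_mul] at h3
  have : U = 0 := IsFractionRing.injective ℚ[X] (RatFunc ℚ) (by rw [← h3, map_zero])
  rw [this, map_zero] at h4
  exact sub_eq_zero.1 ((h1.mul_left_eq_zero).1 h4.symm)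

theorem ex_f {A : Type*} [CommRing A] (Q : A) (N : ℕ) (h : ∀ j, j < N → IsUnit (1 - Q ^ (j + 1))) :
    ∃ f : ℕ → A, ∀ j, j < N → (1 - Q ^ (j + 1)) * f (j + 1) = 1 := by
  have : ∀ j, ∃ w, j < N → (1 - Q ^ (j + 1)) * w = 1 := fun j => by
    by_cases hj : j < N
    · obtain ⟨w, hw⟩ := (h j hj).exists_right_inv
      exact ⟨w, fun _ => hw⟩
    · exact ⟨0, fun h => absurd h hj⟩
  choose g hg using this
  exact ⟨fun j => g (j - 1), hg⟩

theorem rel_T [Nontrivial (AdjoinRoot P)] {QK aK wK : RatFunc ℚ} {Q Qi y yi w : AdjoinRoot P}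
    {f : ℕ → AdjoinRoot P} {M N : ℕ} (hQ : Q * Qi = 1) (hy : y * yi = 1)
    (hf : ∀ j, j < N → (1 - Q ^ (j + 1)) * f (j + 1) = 1) (hw : w * yi ^ M = Qi)
    (rQ : Rel P QK Q) (ra : Rel P aK (Q * yi)) (rw' : Rel P wK w) :
    Rel P (∑ j ∈ range (N + 1), (1 - QK ^ (2 * j) * aK) * ((∏ i ∈ range j, (1 - aK * QK ^ i)) /
      ∏ i ∈ range j, (1 - QK * QK ^ i)) ^ (2 * M) * wK ^ j) (T Q Qi y yi f M (N + 1)) := by
  refine Rel.sum _ fun j hj => ?_
  have hj' := mem_range.1 hj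
  have r1 : Rel P ((∏ i ∈ range j, (1 - aK * QK ^ i)) / ∏ i ∈ range j, (1 - QK * QK ^ i))
      (∏ i ∈ range j, yi * (1 + (y - 1) * f (i + 1))) := by
    rw [← prod_div_distrib]
    refine Rel.prod _ fun i hi => ?_
    have h1 := hf i (by have := mem_range.1 hi; omega)
    rw [div_eq_mul_inv]
    convert (Rel.one.sub (ra.mul (rQ.pow i))).mul ((Rel.one.sub (rQ.mul (rQ.pow i))).inv
      (b := f (i + 1)) (by rw [← pow_succ']; exact h1)) using 1
    linear_combination f (i + 1) * hy - yi * h1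
  convert ((Rel.one.sub ((rQ.pow (2 * j)).mul ra)).mul (r1.pow (2 * M))).mul (rw'.pow j) using 1
  have h2 : (∏ i ∈ range j, yi * (1 + (y - 1) * f (i + 1))) ^ (2 * M)
      = (yi ^ M) ^ j * c y yi f M j := by
    rw [c, ← prod_pow, show (yi ^ M) ^ j = ∏ _i ∈ range j, yi ^ M by simp, ← prod_mul_distrib]
    exact prod_congr rfl fun i _ => by rw [mul_pow]; ring
  have h3 : w ^ j * (yi ^ M) ^ j = Qi ^ j := by rw [← mul_pow, hw]
  have h4 : Q ^ j * Qi ^ j = 1 := by rw [← mul_pow, hQ, one_pow]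
  rw [h2]
  linear_combination c y yi f M j * (-(1 - Q ^ (2 * j) * (Q * yi)) * h3 + Q ^ (j + 1) * yi * h4)

theorem root_inv {n : ℕ} (e : ℕ) (hn : 1 < n) :
    ∃ xi, AdjoinRoot.root (cyclotomic n ℚ ^ e) * xi = 1 := by
  have h := eps_pow n e
  set x := AdjoinRoot.root (cyclotomic n ℚ ^ e)
  have h1 : IsUnit (x ^ n) := by
    have : IsNilpotent (x ^ n - 1) := ⟨e, h⟩
    simpa using this.isUnit_add_one
  exact ((isUnit_pow_iff (by omega)).1 h1).exists_right_inv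

end Pool.Agent.H.MP_328b17_nt
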